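import Pool.Agent.W580.SH.StmB

/-!
# SH-COUNT: the counting argument
-/

set_option autoImplicit false
set_option linter.unusedSectionVars false

namespace Pool.Agent.W318.SH.Count

open Pool.Agent.W580.SH Finset

variable {R : Type} [Fintype R] [DecidableEq R]

/-- the restriction of a vector to the rows `J` -/
def rs (J : Finset R) (a : R → ℤ) : R → ℤ := fun r => if r ∈ J then a r else 0

/-- the number of restrictions of elements of `A` to the rows `J` -/
def gg (A : Finset (R → ℤ)) (J : Finset R) : ℕ := (A.image (rs J)).card

theorem rs_update (J : Finset R) (l : R) (hl : l ∈ J) (a : R → ℤ) (c : ℤ) (h : a l = c) :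
    rs J a = Function.update (rs (J.erase l) a) l c := by
  funext r
  by_cases hr : r = l
  · subst hr
    rw [Function.update_self]
    unfold rs
    rw [if_pos hl, h]
  · rw [Function.update_of_ne hr]
    unfold rs
    simp only [Finset.mem_erase, ne_eq, hr, not_false_eq_true, true_and]

theorem card_part (A : Finset (R → ℤ)) (J : Finset R) (l : R) (hl : l ∈ J) (c : ℤ) :
    ((A.filter fun a => a l = c).image (rs J)).card ≤
      ((A.filter fun a => a l = c).image (rs (J.erase l))).card := by
  have h : (A.filter fun a => a l = c).image (rs J) ⊆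
      ((A.filter fun a => a l = c).image (rs (J.erase l))).image
        (fun w => Function.update w l c) := by
    intro w hw
    rw [Finset.mem_image] at hw ⊢
    obtain ⟨a, ha, rfl⟩ := hw
    refine ⟨rs (J.erase l) a, Finset.mem_image_of_mem _ ha, ?_⟩
    rw [Finset.mem_filter] at ha
    exact (rs_update J l hl a c ha.2).symm
  exact (Finset.card_le_card h).trans Finset.card_image_le

theorem step (A : Finset (R → ℤ)) (hb : ∀ a ∈ A, ∀ r, a r = 0 ∨ a r = 1) (J : Finset R) (l : R)
    (hl : l ∈ J) (n : ℕ) (hn : ¬ ∃ u v : Fin (n + 1) → (R → ℤ), Pairs A J l (n + 1) u v) :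
    gg A J ≤ gg A (J.erase l) + n := by
  set W0 := (A.filter fun a => a l = 0).image (rs (J.erase l)) with hW0
  set W1 := (A.filter fun a => a l = 1).image (rs (J.erase l)) with hW1
  have hA : A = (A.filter fun a => a l = 0) ∪ (A.filter fun a => a l = 1) := by
    ext a
    rw [Finset.mem_union, Finset.mem_filter, Finset.mem_filter]
    constructor
    · intro ha
      rcases hb a ha l with h | h
      · exact Or.inl ⟨ha, h⟩
      · exact Or.inr ⟨ha, h⟩
    · rintro (h | h) <;> exact h.1
  have h1 : gg A J ≤ W0.card + W1.card := by
    unfold gg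
    rw [hA, Finset.image_union]
    refine (Finset.card_union_le _ _).trans ?_
    exact Nat.add_le_add (card_part A J l hl 0) (card_part A J l hl 1)
  have h2 : W0.card + W1.card = gg A (J.erase l) + (W0 ∩ W1).card := by
    have h3 : A.image (rs (J.erase l)) = W0 ∪ W1 := by
      conv_lhs => rw [hA]
      rw [Finset.image_union]
    unfold gg
    rw [h3, Finset.card_union_add_card_inter]
  have h4 : (W0 ∩ W1).card ≤ n := by
    by_contra hcon
    push Not at hcon
    apply hn
    obtain ⟨w, hw⟩ : ∃ w : Fin (n + 1) → (R → ℤ), Function.Injective w ∧ ∀ i, w i ∈ W0 ∩ W1 := by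
      obtain ⟨t, ht, hc⟩ := Finset.exists_subset_card_eq (Nat.succ_le_of_lt hcon)
      refine ⟨fun i => (t.equivFinOfCardEq hc).symm i, ?_, fun i => ht ?_⟩
      · intro i i' h
        exact (t.equivFinOfCardEq hc).symm.injective (Subtype.ext h)
      · exact ((t.equivFinOfCardEq hc).symm i).2
    obtain ⟨hinj, hmem⟩ := hw
    have hv : ∀ i, ∃ a ∈ A, a l = 0 ∧ rs (J.erase l) a = w i := by
      intro i
      have h5 := (Finset.mem_inter.1 (hmem i)).1
      rw [hW0, Finset.mem_image] at h5
      obtain ⟨a, ha, h6⟩ := h5
      rw [Finset.mem_filter] at ha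
      exact ⟨a, ha.1, ha.2, h6⟩
    have hu : ∀ i, ∃ a ∈ A, a l = 1 ∧ rs (J.erase l) a = w i := by
      intro i
      have h5 := (Finset.mem_inter.1 (hmem i)).2
      rw [hW1, Finset.mem_image] at h5
      obtain ⟨a, ha, h6⟩ := h5
      rw [Finset.mem_filter] at ha
      exact ⟨a, ha.1, ha.2, h6⟩
    choose v hvA hvl hvw using hv
    choose u huA hul huw using hu
    refine ⟨u, v, fun i => ⟨huA i, hvA i, hul i, hvl i, ?_⟩, ?_⟩
    · intro j hj hjl
      have h5 : rs (J.erase l) (u i) j = rs (J.erase l) (v i) j := by rw [huw, hvw]
      unfold rs at h5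
      rwa [if_pos (Finset.mem_erase.2 ⟨hjl, hj⟩), if_pos (Finset.mem_erase.2 ⟨hjl, hj⟩)] at h5
    · intro i i' hii
      have h5 : w i ≠ w i' := fun h => hii (hinj h)
      rw [Function.ne_iff] at h5
      obtain ⟨j, hj⟩ := h5
      rw [← huw, ← huw] at hj
      unfold rs at hj
      by_cases hjJ : j ∈ J.erase l
      · rw [if_pos hjJ, if_pos hjJ] at hj
        rw [Finset.mem_erase] at hjJ
        exact ⟨j, hjJ.2, hjJ.1, hj⟩
      · rw [if_neg hjJ, if_neg hjJ] at hj
        exact absurd rfl hj
  omega

/-- (COUNT) the counting argument -/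
theorem main : S_COUNT := by
  intro R _ _ I A P _ hb hs hst
  have key : ∀ k : ℕ, ∀ J ⊆ I, J.card = k →
      gg A J ≤ 1 + 2 * k + (if 4 ≤ (J.filter P).card then 1 else 0) := by
    intro k
    induction k with
    | zero =>
      intro J _ hk
      rw [Finset.card_eq_zero] at hk
      subst hk
      have h1 : A.image (rs (∅ : Finset R)) ⊆ {0} := by
        intro w hw
        rw [Finset.mem_image] at hw
        obtain ⟨a, _, rfl⟩ := hw
        rw [Finset.mem_singleton]
        funext r
        unfold rs
        simp
      have h2 := Finset.card_le_card h1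
      rw [Finset.card_singleton] at h2
      unfold gg
      omega
    | succ k ih =>
      intro J hJ hk
      by_cases hS : Stuck A J
      · obtain ⟨h4, hq⟩ := hst J hJ hS
        have hne : (J.filter P).Nonempty := by
          rw [← Finset.card_pos, h4]
          norm_num
        obtain ⟨l, hl⟩ := hne
        have hl' := Finset.mem_filter.1 hl
        have h1 := step A hb J l hl'.1 3 (hq l hl'.1 hl'.2)
        have h2 := ih (J.erase l) ((Finset.erase_subset _ _).trans hJ) (by
          rw [Finset.card_erase_of_mem hl'.1, hk]
          rfl)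
        have h3 : ((J.erase l).filter P).card = 3 := by
          rw [Finset.filter_erase, Finset.card_erase_of_mem hl, h4]
        rw [h3] at h2
        rw [h4]
        norm_num at h2 ⊢
        omega
      · have hne : J.Nonempty := by
          rw [← Finset.card_pos, hk]
          omega
        have h0 : ∃ l ∈ J, ¬ ∃ u v : Fin 3 → (R → ℤ), Pairs A J l 3 u v := by
          by_contra hcon
          apply hS
          refine ⟨hne, fun l hl => ?_⟩
          by_contra h
          exact hcon ⟨l, hl, h⟩
        obtain ⟨l, hl, hq⟩ := h0
        have h1 := step A hb J l hl 2 hq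
        have h2 := ih (J.erase l) ((Finset.erase_subset _ _).trans hJ) (by
          rw [Finset.card_erase_of_mem hl, hk]
          rfl)
        have h3 : ((J.erase l).filter P).card ≤ (J.filter P).card :=
          Finset.card_le_card (Finset.filter_subset_filter _ (Finset.erase_subset _ _))
        have h4 : (if 4 ≤ ((J.erase l).filter P).card then 1 else 0) ≤
            (if 4 ≤ (J.filter P).card then 1 else 0) := by
          split_ifs <;> omega
        omega
  have h1 := key I.card I (Finset.Subset.refl _) rfl
  have h2 : gg A I = A.card := by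
    unfold gg
    apply Finset.card_image_of_injOn
    intro a ha b hb' h
    have e : ∀ x ∈ A, rs I x = x := by
      intro x hx
      funext r
      unfold rs
      split_ifs with hr
      · rfl
      · exact (hs x hx r hr).symm
    have h' : rs I a = rs I b := h
    rwa [e a ha, e b hb'] at h'
  have h3 : (if 4 ≤ (I.filter P).card then 1 else 0) ≤ 1 := by
    split_ifs <;> omega
  omega

end Pool.Agent.W318.SH.Count
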